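import Pool.Agent.H11.CC.Main
import Pool.Agent.H66.SyP.Defs

/-!
MP_b8283b_gt: Lagrangian rational homology spheres in CP^3 with a circle symmetry that has a fixed point.

A point of CP^3 is the orthogonal projection pt z onto a complex line of C^4; L is a compact connected
embedded Lagrangian submanifold with H^1(L; R) = 0. Sym b L w says that L is invariant under exp(itH),
t real, where H has the eigenvalues w_k in the orthonormal basis b. If H is not scalar and these isometries
have a common fixed point on L (or the mean of the w_k is one of them), then H^1(L; U(1)) has at most two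
elements: of two flat U(1) cocycles on L one of them, or their product, has a flat section.
-/

set_option autoImplicit false

open Pool.Agent.H66.SyL Pool.Agent.H66.SyP Pool.Agent.H11.CC

theorem Pool.Agent.Results.MP_b8283b_gt.CircleFixedPoint.result
    (L : Set (Op 3)) (hL : IsLag L) (hc : IsCompact L) (hconn : IsConnected L)
    (h1 : H1Zero L) (b : OrthonormalBasis (Fin (3 + 1)) ℂ (E 3)) (w : Fin (3 + 1) → ℝ)
    (hw : Sym b L w) (hns : ∃ k, w k ≠ mean w)
    (hf : (∃ P ∈ L, ∀ t : ℝ, act b (t • w) P = P) ∨ ∃ k, w k = mean w)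
    (ψ₁ ψ₂ : Op 3 → Op 3 → Circle) (h₁ : Coc L ψ₁) (h₂ : Coc L ψ₂) :
    (∃ g, Frame L ψ₁ g) ∨ (∃ g, Frame L ψ₂ g) ∨ ∃ g, Frame L (fun P Q => ψ₁ P Q * ψ₂ P Q) g :=
  main hL.lag hc hconn h1 b hw hns hf h₁ h₂
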