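import Pool.Agent.H66.SyL.Types
import Pool.Agent.H66.SyP.Defs

/-!
MP_b8283b_gt: a semi-invariant form which does not vanish on a Lagrangian rational homology sphere in
CP^3 with a symmetry has a prescribed weight.
-/

set_option autoImplicit false

open Pool.Agent.H66.SyL Pool.Agent.H66.SyP

theorem Pool.Agent.Results.MP_b8283b_gt.FormsVanish.result
    (L : Set (Op 3)) (hL : IsLag L) (hc : IsCompact L) (hconn : IsConnected L)
    (h1 : H1Zero L) (b : OrthonormalBasis (Fin (3 + 1)) ℂ (E 3)) (w : Fin (3 + 1) → ℝ)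
    (hw : Sym b L w) (f : E 3 → ℂ) (hf : Continuous f) (d : ℤ) (e : ℝ)
    (hhom : ∀ (c : ℂ) (z : E 3), ‖c‖ = 1 → f (c • z) = c ^ d * f z)
    (heq : ∀ (t : ℝ) (z : E 3),
      f (rot b (t • w) z) = Complex.exp ((e * t : ℝ) * Complex.I) * f z)
    (hne : e ≠ d * mean w) : ∃ z : E 3, ‖z‖ = 1 ∧ pt z ∈ L ∧ f z = 0 :=
  ((main L hL.lag hc hconn h1 b).1 w hw).2.1 f d e hf hhom heq hne
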