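import Pool.Agent.H66.SyL.Types
import Pool.Agent.H66.SyP.Defs

/-!
MP_b8283b_gt: symmetries of Lagrangian rational homology spheres in CP^3.

A point of CP^3 is the orthogonal projection pt z onto a complex line of C^4; L is a compact connected
embedded Lagrangian submanifold with H^1(L; R) = 0 (a Lagrangian rational homology 3-sphere).
b is an orthonormal basis of C^4 and Sym b L w says that the Hermitian operator with eigenvalues w_k
in the basis b is an infinitesimal symmetry of L: exp(itH) preserves L for every t.
-/

set_option autoImplicit false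

open Pool.Agent.H66.SyL Pool.Agent.H66.SyP

theorem Pool.Agent.Results.MP_b8283b_gt.SymmetricSpheres.result
    (L : Set (Op 3)) (hL : IsLag L) (hc : IsCompact L) (hconn : IsConnected L)
    (h1 : H1Zero L) (b : OrthonormalBasis (Fin (3 + 1)) ℂ (E 3)) :
    (∀ w, Sym b L w → Centred b L w ∧ Typed b L w) ∧
    ((∃ w0, ∀ w, Sym b L w → ∃ s t : ℝ, w = s • (fun _ => (1 : ℝ)) + t • w0) ∨ Paired b L) :=
  types L hL.lag hc hconn h1 b
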