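import Pool.Agent.H66.SyM.Main
import Pool.Agent.H66.SyP.Defs
import Pool.Agent.H66.SyP.Two

/-!
MP_b8283b_gt: Lagrangian rational homology 3-spheres in CP^3 with two independent symmetries.

A point of CP^3 is the orthogonal projection pt z onto a complex line of C^4; L is a compact connected
embedded Lagrangian submanifold with H^1(L; R) = 0. Symm L H says that H is Hermitian and exp(itH)
preserves L for every t. RP3 is the set of real points, chiang b the Chiang Lagrangian in the
orthonormal basis b.
-/

set_option autoImplicit false

open Pool.Agent.H66.SyL Pool.Agent.H66.SyM Pool.Agent.H66.SyP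

theorem Pool.Agent.Results.MP_b8283b_gt.TwoSymmetries.result
    (L : Set (Op 3)) (hL : IsLag L) (hc : IsCompact L) (hconn : IsConnected L)
    (h1 : H1Zero L) (H H' : Op 3) (hs : Symm L H) (hs' : Symm L H') (hind : Indep H H') :
    Homeo L Pool.Agent.H11.ST.RP3 ∨
      ∃ b : OrthonormalBasis (Fin 4) ℂ (E 3), L = chiang b :=
  main hL.lag hc hconn h1 hs hs' hind
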